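import Pool.Agent.H.MP_b3a091_al.Main

set_option autoImplicit false

universe u

theorem Pool.Agent.Results.MP_b3a091_al.Exact.result (G : Type u) [Group G] [Countable G]
    [Infinite G] :
    ∃ A B : Set G, A.Infinite ∧ B.Infinite ∧
      ∀ g : G, ∃! p : G × G, p.1 ∈ A ∧ p.2 ∈ B ∧ p.1 * p.2 = g := by
  obtain ⟨A, B, hA, hB, hinj, hall⟩ := Pool.Agent.H.MP_b3a091_al.main G
  refine ⟨A, B, hA, hB, fun g => ?_⟩
  obtain ⟨a, ha, b, hb, hab⟩ := hall g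
  refine ⟨(a, b), ⟨ha, hb, hab⟩, ?_⟩
  rintro ⟨a', b'⟩ ⟨ha', hb', hab'⟩
  obtain ⟨h1, h2⟩ := hinj a' ha' b' hb' a ha b hb (hab'.trans hab.symm)
  exact Prod.ext h1 h2
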